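import Pool.Agent.H18.QGR.Stmts

set_option autoImplicit false

noncomputable section

namespace Pool.QGR

open Pool.CGR

namespace DFOaux

variable {m : ℕ} (q : Fin m → Fin m → ℝ)

/-- one word -/
def dw (i : Fin m) (w : List (Fin m)) : E m :=
  ∑ k ∈ Finset.range w.length,
    if w[k]? = some i then (Fk q (w.drop (k + 1)) []) • Fk q (w.take k) else 0

def Dl (i : Fin m) : E m →ₗ[ℂ] E m := Finsupp.linearCombination ℂ (dw q i)

theorem Dl_single (i : Fin m) (w : List (Fin m)) :
    Dl q i (Finsupp.single w 1) = dw q i w := by
  simp [Dl, Finsupp.linearCombination_single]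

theorem Dl_nil (i : Fin m) (f : E m) : (Dl q i f) [] = ci q i f := by
  have h : (Finsupp.lapply ([] : List (Fin m))).comp (Dl q i) = ci q i := by
    apply Finsupp.lhom_ext
    intro w r
    simp only [LinearMap.comp_apply, Dl, ci, Finsupp.linearCombination_single,
      Finsupp.lapply_apply, Finsupp.smul_apply, dw, dq]
    congr 1
    rw [Finsupp.finsetSum_apply]
    refine Finset.sum_congr rfl fun k _ => ?_
    split_ifs
    · rw [Finsupp.smul_apply, smul_eq_mul, mul_comm]
    · rfl
  rw [← h]
  rfl

theorem Dl_cn (i j : Fin m) (f : E m) :
    Dl q i (cn j f) = X q j (Dl q i f) +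
      if i = j then (Ph q f) [] • Finsupp.single [] 1 else 0 := by
  induction f using Finsupp.induction_linear with
  | zero => simp
  | add f g hf hg =>
    simp only [map_add, hf, hg, Finsupp.add_apply]
    split_ifs
    · rw [add_smul]; abel
    · abel
  | single w r =>
    have hr : (Finsupp.single w r : E m) = r • Finsupp.single w 1 := by
      rw [Finsupp.smul_single, smul_eq_mul, mul_one]
    rw [hr]
    simp only [map_smul, Finsupp.smul_apply]
    have hc : cn j (Finsupp.single w (1 : ℂ)) = Finsupp.single (j :: w) 1 := by
      simp [cn]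
    have hp : Ph q (Finsupp.single w 1) = Fk q w := by
      simp [Ph, Finsupp.linearCombination_single]
    rw [hc, hp, Dl_single, Dl_single]
    have hkey : dw q i (j :: w) = X q j (dw q i w) +
        if i = j then (Fk q w) [] • Finsupp.single [] 1 else 0 := by
      unfold dw
      rw [List.length_cons, Finset.sum_range_succ', map_sum]
      congr 1
      · refine Finset.sum_congr rfl fun k _ => ?_
        simp only [List.getElem?_cons_succ, List.drop_succ_cons, List.take_succ_cons]
        split_ifs
        · rw [map_smul]; rfl
        · rw [map_zero]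
      · simp only [List.getElem?_cons_zero, List.drop_succ_cons, List.drop_zero, List.take_zero,
          Option.some.injEq]
        by_cases h : i = j
        · subst h
          simp [Fk]
        · rw [if_neg (fun h' => h h'.symm), if_neg h]
    rw [hkey]
    split_ifs
    · rw [smul_add, smul_smul, smul_eq_mul]
    · rw [smul_add, smul_zero]

theorem GeL_an (i j : Fin m) (w : List (Fin m)) :
    GeL q i (an q j (Finsupp.single w 1)) = ∑ k ∈ Finset.range w.length,
      if w[k]? = some j then om q j (w.take k) • Ge q i (w.eraseIdx k) else 0 := by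
  unfold an
  rw [Finsupp.linearCombination_single, one_smul, map_sum]
  refine Finset.sum_congr rfl fun k _ => ?_
  split_ifs
  · rw [GeL, Finsupp.linearCombination_single]
  · rw [map_zero]

theorem Dl_Wk (h1 : DGEStmt) (h2 : WKFStmt) (hs : ∀ i j, q i j = q j i) (i : Fin m) :
    ∀ (n : ℕ) (w : List (Fin m)), w.length ≤ n → Dl q i (Wk q w) = Ge q i w := by
  intro n
  induction n with
  | zero =>
    intro w hw
    have : w = [] := List.length_eq_zero_iff.1 (Nat.le_zero.1 hw)
    subst this
    rw [Wk, Dl_single]
    simp [dw, Ge]
  | succ n ih =>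
    intro w hw
    cases w with
    | nil =>
      rw [Wk, Dl_single]
      simp [dw, Ge]
    | cons j w =>
      have hw' : w.length ≤ n := by simpa using hw
      rw [Wk, map_sub, Dl_cn, ih w hw', h2 m q w, h1 m q hs i j w, GeL_an, map_sum]
      have h3 : ∑ k ∈ Finset.range w.length,
          Dl q i (if w[k]? = some j then om q j (w.take k) • Wk q (w.eraseIdx k) else 0) =
          ∑ k ∈ Finset.range w.length,
            if w[k]? = some j then om q j (w.take k) • Ge q i (w.eraseIdx k) else 0 := by
        refine Finset.sum_congr rfl fun k hk => ?_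
        split_ifs
        · rw [map_smul, ih _ ((List.length_eraseIdx_le w k).trans hw')]
        · rw [map_zero]
      rw [h3]
      have h4 : (if i = j then ((Finsupp.single w (1 : ℂ) : E m) []) • (Finsupp.single [] 1 : E m)
          else 0) = if i = j ∧ w = [] then Finsupp.single [] 1 else 0 := by
        by_cases hij : i = j
        · by_cases hw0 : w = []
          · subst hw0; simp [hij]
          · have : (Finsupp.single w (1 : ℂ) : E m) [] = 0 :=
              Finsupp.single_eq_of_ne (fun h => hw0 h.symm)
            rw [this]; simp [hw0]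
        · simp [hij]
      rw [h4]
      abel

end DFOaux

theorem dfo_thm (h1 : DGEStmt) (h2 : WKFStmt) : DFOStmt := by
  intro m q hs i w
  rw [← DFOaux.Dl_nil, DFOaux.Dl_Wk q h1 h2 hs i w.length w le_rfl]

end Pool.QGR
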